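import Pool.Agent.R713.Sys

/-!
# MP_9ad7dc_al: generating sets of primitive idempotents in a Leonard system

For every Leonard system and every `r ≤ d` the elements `E^*_0, …, E^*_r, E_r, …, E_d` together
generate the algebra `End V`.
-/

set_option autoImplicit false

namespace Pool.Agent.Results.MP_9ad7dc_al.Generators

open Pool.Agent.R713 Module

section

variable {K V : Type*} [Field K] [AddCommGroup V] [Module K V]

theorem eq_top_of [Module.Finite K V] (S : Subalgebra K (Module.End K V)) (g : Dual K V) (v0 : V)
    (hP : LinearMap.smulRight g v0 ∈ S) (h1 : ∀ w, ∃ b ∈ S, b v0 = w)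
    (h2 : ∀ x, (∀ b ∈ S, g (b x) = 0) → x = 0) : S = ⊤ := by
  have rank1 : ∀ (w : V) (φ : Dual K V), LinearMap.smulRight φ w ∈ S := by
    intro w
    let M : Submodule K (Dual K V) :=
      { carrier := {φ | LinearMap.smulRight φ w ∈ S}
        add_mem' := fun {a b} ha hb => by
          have : LinearMap.smulRight (a + b) w = LinearMap.smulRight a w + LinearMap.smulRight b w := by
            ext x
            simp [add_smul]
          show LinearMap.smulRight (a + b) w ∈ S
          rw [this]
          exact S.add_mem ha hb
        zero_mem' := by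
          have : LinearMap.smulRight (0 : Dual K V) w = 0 := by
            ext x
            simp
          show LinearMap.smulRight (0 : Dual K V) w ∈ S
          rw [this]
          exact S.zero_mem
        smul_mem' := fun c a ha => by
          have : LinearMap.smulRight (c • a) w = c • LinearMap.smulRight a w := by
            ext x
            simp [mul_smul]
          show LinearMap.smulRight (c • a) w ∈ S
          rw [this]
          exact S.smul_mem ha c }
    have hM : M.dualCoannihilator = ⊥ := by
      rw [eq_bot_iff]
      intro x hx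
      rw [Submodule.mem_dualCoannihilator] at hx
      rw [Submodule.mem_bot]
      refine h2 x fun b hb => ?_
      obtain ⟨c, hc, hcw⟩ := h1 w
      have : g ∘ₗ b ∈ M := by
        show LinearMap.smulRight (g ∘ₗ b) w ∈ S
        have e : LinearMap.smulRight (g ∘ₗ b) w = c * LinearMap.smulRight g v0 * b := by
          ext x
          simp [Module.End.mul_apply, hcw]
        rw [e]
        exact S.mul_mem (S.mul_mem hc hP) hb
      exact hx _ this
    have hMt : M = ⊤ := by
      rw [← Subspace.dualCoannihilator_dualAnnihilator_eq (W := M), hM,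
        Submodule.dualAnnihilator_bot]
    intro φ
    have : φ ∈ M := hMt ▸ Submodule.mem_top
    exact this
  rw [eq_top_iff]
  intro f _
  let b := Module.finBasis K V
  have e : f = ∑ i, LinearMap.smulRight (b.coord i) (f (b i)) := by
    refine b.ext fun j => ?_
    rw [LinearMap.sum_apply, Finset.sum_eq_single j]
    · simp
    · intro i _ hij
      simp [hij.symm]
    · intro h'
      exact absurd (Finset.mem_univ j) h'
  rw [e]
  exact S.sum_mem fun i _ => rank1 _ _

variable {d : ℕ} {A B : Module.End K V} {θ θs : Fin (d + 1) → K}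
  {E Es : Fin (d + 1) → Module.End K V}

/-- `E^*_0` is injective on `E_j V` -/
theorem inj_Es0 (h : LeonardSystem d A B θ θs E Es) (j : Fin (d + 1)) (w : V)
    (hw : Es 0 (E j w) = 0) : E j w = 0 := by
  refine h.revEs.few d (E j w) ?_ {j}ᶜ ?_ ?_
  · intro k hk
    have hk' : k = Fin.last d := Fin.ext (by have := k.isLt; simp; omega)
    rw [hk']
    simpa using hw
  · rw [Finset.card_compl, Fintype.card_fin, Finset.card_singleton]
    simp
  · intro i hi
    rw [h.primA.orth_apply, if_neg]
    simpa using hi

end

theorem result {K V : Type*} [Field K] [AddCommGroup V] [Module K V] {d : ℕ}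
    {A B : Module.End K V} {θ θs : Fin (d + 1) → K} {E Es : Fin (d + 1) → Module.End K V}
    (h : LeonardSystem d A B θ θs E Es) (r : ℕ) (hr : r ≤ d) :
    Algebra.adjoin K ({X | ∃ i : Fin (d + 1), (i : ℕ) ≤ r ∧ X = Es i} ∪
      {X | ∃ j : Fin (d + 1), r ≤ (j : ℕ) ∧ X = E j} : Set (Module.End K V)) = ⊤ := by
  have hfin := h.finite
  set S := Algebra.adjoin K ({X | ∃ i : Fin (d + 1), (i : ℕ) ≤ r ∧ X = Es i} ∪
      {X | ∃ j : Fin (d + 1), r ≤ (j : ℕ) ∧ X = E j} : Set (Module.End K V)) with hS
  have memEs : ∀ i : Fin (d + 1), (i : ℕ) ≤ r → Es i ∈ S := fun i hi =>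
    Algebra.subset_adjoin (Or.inl ⟨i, hi, rfl⟩)
  have memE : ∀ j : Fin (d + 1), r ≤ (j : ℕ) → E j ∈ S := fun j hj =>
    Algebra.subset_adjoin (Or.inr ⟨j, hj, rfl⟩)
  obtain ⟨v, hv⟩ := h.exists_v
  obtain ⟨φ, hφ⟩ : ∃ φ : Dual K V, φ (Es 0 v) ≠ 0 := by
    by_contra hcon
    push Not at hcon
    exact hv ((Module.forall_dual_apply_eq_zero_iff K _).1 hcon)
  have h0r : ((0 : Fin (d + 1)) : ℕ) ≤ r := by simp
  have hdr : r ≤ ((Fin.last d : Fin (d + 1)) : ℕ) := by simpa using hr
  let g : Dual K V := (φ (Es 0 v))⁻¹ • (φ ∘ₗ Es 0)
  have hg : LinearMap.smulRight g (Es 0 v) = Es 0 := by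
    ext x
    obtain ⟨c, hc⟩ := h.primB.smul_of_line h.dim 0 v x hv
    show g x • Es 0 v = Es 0 x
    have : g x = c := by
      show (φ (Es 0 v))⁻¹ • φ (Es 0 x) = c
      rw [hc, map_smul, smul_eq_mul, smul_eq_mul]
      field_simp
    rw [this, hc]
  have hg0 : ∀ x, g x = 0 → Es 0 x = 0 := by
    intro x hx
    have := DFunLike.congr_fun hg x
    rw [← this]
    show g x • Es 0 v = 0
    rw [hx, zero_smul]
  refine eq_top_of S g (Es 0 v) ?_ ?_ ?_
  · rw [hg]
    exact memEs 0 h0r
  · -- `W = S v0` is everything
    let W : Submodule K V :=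
      (Subalgebra.toSubmodule S).map (LinearMap.applyₗ (Es 0 v))
    have hWmem : ∀ w, w ∈ W ↔ ∃ b ∈ S, b (Es 0 v) = w := by
      intro w
      rfl
    have hWmul : ∀ X ∈ S, ∀ w ∈ W, X w ∈ W := by
      intro X hX w hw
      rw [hWmem] at hw ⊢
      obtain ⟨b, hb, rfl⟩ := hw
      exact ⟨X * b, S.mul_mem hX hb, rfl⟩
    have hWE : ∀ j : Fin (d + 1), r ≤ (j : ℕ) → ∀ x, E j x ∈ W := by
      intro j hj x
      have h1 : E j (Es 0 v) ∈ W := (hWmem _).2 ⟨E j, memE j hj, rfl⟩
      obtain ⟨c, hc⟩ := h.primA.smul_of_line h.dim j _ x (h.E_v_ne v hv j)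
      rw [hc]
      exact W.smul_mem _ h1
    have hWEs : ∀ i : Fin (d + 1), (i : ℕ) ≤ r → ∀ x, Es i x ∈ W := by
      intro i hi x
      obtain ⟨u, hu⟩ := h.swap.revEs.exists_v
      have h1 := h.swap.revEs.E_v_ne u hu i
      have h2 : (E ∘ Fin.rev) 0 = E (Fin.last d) := by simp
      rw [h2] at h1
      have h3 : Es i (E (Fin.last d) u) ∈ W := hWmul _ (memEs i hi) _ (hWE _ hdr u)
      obtain ⟨c, hc⟩ := h.primB.smul_of_line h.dim i _ x h1
      rw [hc]
      exact W.smul_mem _ h3
    -- a linearly independent family of `d + 1` vectors in `W`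
    have hWtop : W = ⊤ := by
      have hy : ∀ i, ∃ y, Es i y ≠ 0 := fun i => by
        by_contra hcon
        push Not at hcon
        exact h.primB.ne i (LinearMap.ext hcon)
      have hz : ∀ i, ∃ z, E i z ≠ 0 := fun i => by
        by_contra hcon
        push Not at hcon
        exact h.primA.ne i (LinearMap.ext hcon)
      choose y hy using hy
      choose z hz using hz
      let w : Fin (d + 1) → V := fun i => if (i : ℕ) ≤ r then Es i (y i) else E i (z i)
      have hwW : ∀ i, w i ∈ W := by
        intro i
        by_cases hi : (i : ℕ) ≤ r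
        · have : w i = Es i (y i) := if_pos hi
          rw [this]
          exact hWEs i hi _
        · have : w i = E i (z i) := if_neg hi
          rw [this]
          exact hWE i (by omega) _
      have hli : LinearIndependent K w := by
        rw [Fintype.linearIndependent_iff]
        intro c hc
        set x := ∑ i ∈ Finset.univ.filter (fun i : Fin (d + 1) => (i : ℕ) ≤ r), c i • w i with hx
        set x' := ∑ i ∈ Finset.univ.filter (fun i : Fin (d + 1) => ¬ (i : ℕ) ≤ r), c i • w i with hx'
        have hsum : x + x' = 0 := by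
          rw [hx, hx', Finset.sum_filter_add_sum_filter_not]
          exact hc
        have hx1 : ∀ k : Fin (d + 1), Es k x = if (k : ℕ) ≤ r then c k • Es k (y k) else 0 := by
          intro k
          rw [hx, map_sum]
          have step : ∀ i ∈ Finset.univ.filter (fun i : Fin (d + 1) => (i : ℕ) ≤ r),
              Es k (c i • w i) = if i = k then c k • Es k (y k) else 0 := by
            intro i hi
            have hi' : (i : ℕ) ≤ r := (Finset.mem_filter.1 hi).2
            have : w i = Es i (y i) := if_pos hi'
            rw [this, map_smul, h.primB.orth_apply]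
            by_cases hik : i = k
            · subst hik
              simp
            · rw [if_neg hik, if_neg (Ne.symm hik), smul_zero]
          rw [Finset.sum_congr rfl step, Finset.sum_ite_eq']
          simp
        have hx2 : ∀ k : Fin (d + 1), E k x' = if ¬ (k : ℕ) ≤ r then c k • E k (z k) else 0 := by
          intro k
          rw [hx', map_sum]
          have step : ∀ i ∈ Finset.univ.filter (fun i : Fin (d + 1) => ¬ (i : ℕ) ≤ r),
              E k (c i • w i) = if i = k then c k • E k (z k) else 0 := by
            intro i hi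
            have hi' : ¬ (i : ℕ) ≤ r := (Finset.mem_filter.1 hi).2
            have : w i = E i (z i) := if_neg hi'
            rw [this, map_smul, h.primA.orth_apply]
            by_cases hik : i = k
            · subst hik
              simp
            · rw [if_neg hik, if_neg (Ne.symm hik), smul_zero]
          rw [Finset.sum_congr rfl step, Finset.sum_ite_eq']
          simp
        have hxx : x = -x' := eq_neg_of_add_eq_zero_left hsum
        have hx0 : x = 0 := by
          refine h.few (r + 1) x ?_ (Finset.univ.filter fun j => (j : ℕ) ≤ r) ?_ ?_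
          · intro k hk
            rw [hx1, if_neg (by omega)]
          · have : (Finset.univ.filter fun j : Fin (d + 1) => (j : ℕ) ≤ r).card = r + 1 := by
              have e : (Finset.univ.filter fun j : Fin (d + 1) => (j : ℕ) ≤ r) =
                  Finset.Iic (⟨r, by omega⟩ : Fin (d + 1)) := by
                ext j
                simp [Fin.le_def]
              rw [e, Fin.card_Iic]
            rw [this]
          · intro j hj
            rw [Finset.mem_filter] at hj
            rw [hxx, map_neg, hx2, if_neg (by simpa using hj.2), neg_zero]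
        have hx0' : x' = 0 := by
          rw [hx0, zero_add] at hsum
          exact hsum
        intro k
        by_cases hk : (k : ℕ) ≤ r
        · have h1 := hx1 k
          rw [hx0, map_zero, if_pos hk] at h1
          exact (smul_eq_zero.1 h1.symm).resolve_right (hy k)
        · have h1 := hx2 k
          rw [hx0', map_zero, if_pos hk] at h1
          exact (smul_eq_zero.1 h1.symm).resolve_right (hz k)
      have hspan : Submodule.span K (Set.range w) = ⊤ :=
        hli.span_eq_top_of_card_eq_finrank' (by rw [h.dim, Fintype.card_fin])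
      rw [eq_top_iff, ← hspan, Submodule.span_le]
      rintro _ ⟨i, rfl⟩
      exact hwW i
    intro w
    exact (hWmem w).1 (hWtop ▸ Submodule.mem_top)
  · intro x hx
    have k1 : ∀ j : Fin (d + 1), r ≤ (j : ℕ) → E j x = 0 := by
      intro j hj
      exact inj_Es0 h j x (hg0 _ (hx _ (memE j hj)))
    have k2 : ∀ i : Fin (d + 1), (i : ℕ) ≤ r → Es i x = 0 := by
      intro i hi
      have h1 : Es 0 (E (Fin.last d) (Es i x)) = 0 :=
        hg0 _ (hx _ (S.mul_mem (memE _ hdr) (memEs i hi)))
      have h2 := inj_Es0 h _ _ h1
      have h3 := inj_Es0 h.swap.revEs i x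
      exact h3 (by simpa using h2)
    refine h.revEs.few (d - r) x ?_ (Finset.univ.filter fun j => r ≤ (j : ℕ)) ?_ ?_
    · intro k hk
      apply k2
      rw [Fin.val_rev]
      omega
    · have : (Finset.univ.filter fun j : Fin (d + 1) => r ≤ (j : ℕ)).card = d + 1 - r := by
        have e : (Finset.univ.filter fun j : Fin (d + 1) => r ≤ (j : ℕ)) =
            Finset.Ici (⟨r, by omega⟩ : Fin (d + 1)) := by
          ext j
          simp [Fin.le_def]
        rw [e, Fin.card_Ici]
      rw [this]
      omega
    · intro j hj
      rw [Finset.mem_filter] at hj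
      exact k1 j hj.2

end Pool.Agent.Results.MP_9ad7dc_al.Generators
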